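import Pool.Agent.H6.RCQ.Stmts4

/-!
# Project RCQ, block N: CV2, CV3, CV4 (counting ordered pairs)
-/

set_option autoImplicit false

namespace Pool.Agent.H30.RCQ.CV

open Pool.Agent.H39.RC Pool.Agent.H6.RCQ
open Classical

variable {V : Type}

/-- the set counted by `pr` -/
noncomputable def prS (R : Finset V) (P : V → V → Prop) : Finset (V × V) :=
  (R ×ˢ R).filter (fun e => e.1 ≠ e.2 ∧ P e.1 e.2)

theorem pr_eq (R : Finset V) (P : V → V → Prop) : pr R P = (prS R P).card := rfl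

theorem mem_prS {R : Finset V} {P : V → V → Prop} {e : V × V} :
    e ∈ prS R P ↔ e.1 ∈ R ∧ e.2 ∈ R ∧ e.1 ≠ e.2 ∧ P e.1 e.2 := by
  rw [prS, Finset.mem_filter, Finset.mem_product]
  tauto

theorem mem_D {G : SimpleGraph V} {R : Finset V} {x v : V} : v ∈ D G R x ↔ v ∈ R ∧ G.Adj x v := by
  rw [D, Finset.mem_filter]

/-- the number of adjacent ordered pairs is the sum of the degrees -/
theorem sum_D (G : SimpleGraph V) (R : Finset V) :
    ∑ w ∈ R, (D G R w).card = pr R (fun a b => G.Adj a b) := by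
  rw [pr_eq, ← Finset.card_sigma]
  refine Finset.card_bij (fun s _ => (s.1, s.2)) ?_ ?_ ?_
  · rintro ⟨a, b⟩ h
    rw [Finset.mem_sigma, mem_D] at h
    rw [mem_prS]
    exact ⟨h.1, h.2.1, h.2.2.ne, h.2.2⟩
  · rintro ⟨a, b⟩ _ ⟨c, d⟩ _ h
    simp only [Prod.mk.injEq] at h
    obtain ⟨rfl, rfl⟩ := h
    rfl
  · rintro ⟨a, b⟩ h
    rw [mem_prS] at h
    exact ⟨⟨a, b⟩, Finset.mem_sigma.2 ⟨h.1, mem_D.2 ⟨h.2.1, h.2.2.2⟩⟩, rfl⟩

theorem cv2 : CV2Stmt := by
  intro V G p lab R k h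
  have h1 : prS R (fun a b => ∃ w, w ∈ R ∧ G.Adj w a ∧ G.Adj w b ∧ lab w a ≠ lab w b) ⊆
      R.biUnion (fun w => prS (D G R w) (fun a b => lab w a ≠ lab w b)) := by
    rintro ⟨a, b⟩ he
    rw [mem_prS] at he
    obtain ⟨ha, hb, hab, w, hw, hwa, hwb, hl⟩ := he
    rw [Finset.mem_biUnion]
    refine ⟨w, hw, ?_⟩
    rw [mem_prS, mem_D, mem_D]
    exact ⟨⟨ha, hwa⟩, ⟨hb, hwb⟩, hab, hl⟩
  calc pr R (fun a b => ∃ w, w ∈ R ∧ G.Adj w a ∧ G.Adj w b ∧ lab w a ≠ lab w b)
      ≤ ∑ w ∈ R, pr (D G R w) (fun a b => lab w a ≠ lab w b) :=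
        (Finset.card_le_card h1).trans Finset.card_biUnion_le
    _ ≤ ∑ w ∈ R, k * (D G R w).card := Finset.sum_le_sum h
    _ = k * pr R (fun a b => G.Adj a b) := by rw [← Finset.mul_sum, sum_D]

theorem cv4 : CV4Stmt := by
  intro V G p lab R hC
  have h0 : R.offDiag.card = R.card * (R.card - 1) := by
    rw [Finset.offDiag_card, Nat.mul_sub_one]
  rw [← h0, pr_eq, pr_eq, pr_eq]
  have h1 : R.offDiag ⊆ (prS R (fun a b => G.Adj a b) ∪
      prS R (fun a b => ¬ G.Adj a b ∧ ∃ w, w ∉ R ∧ G.Adj w a ∧ G.Adj w b)) ∪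
      prS R (fun a b => ∃ w, w ∈ R ∧ G.Adj w a ∧ G.Adj w b ∧ lab w a ≠ lab w b) := by
    rintro ⟨a, b⟩ he
    rw [Finset.mem_offDiag] at he
    obtain ⟨ha, hb, hab⟩ := he
    simp only at ha hb hab
    rw [Finset.mem_union, Finset.mem_union, mem_prS, mem_prS, mem_prS]
    by_cases hadj : G.Adj a b
    · exact Or.inl (Or.inl ⟨ha, hb, hab, hadj⟩)
    · rcases hC.lk a ha b hb hab with h | ⟨w, -, h1, h2, h3⟩
      · exact absurd h hadj
      · by_cases hw : w ∈ R
        · exact Or.inr ⟨ha, hb, hab, w, hw, h1, h2, h3⟩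
        · exact Or.inl (Or.inr ⟨ha, hb, hab, hadj, w, hw, h1, h2⟩)
  refine (Finset.card_le_card h1).trans ?_
  refine (Finset.card_union_le _ _).trans ?_
  exact Nat.add_le_add_right (Finset.card_union_le _ _) _

/-- pairs with different labels plus pairs with equal labels -/
theorem pr_ne_add (p : ℕ) (f : V → Fin p) (S : Finset V) :
    pr S (fun a b => f a ≠ f b) + ∑ i : Fin p, (S.filter (fun a => f a = i)).card ^ 2 =
      S.card ^ 2 := by
  have h1 : ∑ i : Fin p, (S.filter (fun a => f a = i)).card ^ 2 =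
      ((S ×ˢ S).filter (fun e : V × V => f e.1 = f e.2)).card := by
    have : ((S ×ˢ S).filter (fun e : V × V => f e.1 = f e.2)) =
        (Finset.univ : Finset (Fin p)).biUnion (fun i =>
          (S.filter (fun a => f a = i)) ×ˢ (S.filter (fun a => f a = i))) := by
      ext ⟨a, b⟩
      simp only [Finset.mem_filter, Finset.mem_product, Finset.mem_biUnion, Finset.mem_univ,
        true_and]
      constructor
      · rintro ⟨⟨ha, hb⟩, h⟩
        exact ⟨f b, ⟨ha, h⟩, hb, rfl⟩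
      · rintro ⟨i, ⟨ha, h⟩, hb, h'⟩
        exact ⟨⟨ha, hb⟩, h.trans h'.symm⟩
    rw [this, Finset.card_biUnion]
    · exact Finset.sum_congr rfl fun i _ => by rw [Finset.card_product, sq]
    · intro i _ j _ hij
      show Disjoint ((S.filter (fun a => f a = i)) ×ˢ (S.filter (fun a => f a = i)))
        ((S.filter (fun a => f a = j)) ×ˢ (S.filter (fun a => f a = j)))
      rw [Finset.disjoint_left]
      rintro ⟨a, b⟩ h1 h2
      simp only [Finset.mem_filter, Finset.mem_product] at h1 h2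
      exact hij (h1.1.2.symm.trans h2.1.2)
  have h2 : prS S (fun a b => f a ≠ f b) =
      (S ×ˢ S).filter (fun e : V × V => ¬ f e.1 = f e.2) := by
    ext ⟨a, b⟩
    rw [mem_prS, Finset.mem_filter, Finset.mem_product]
    constructor
    · rintro ⟨ha, hb, _, h⟩; exact ⟨⟨ha, hb⟩, h⟩
    · rintro ⟨⟨ha, hb⟩, h⟩
      exact ⟨ha, hb, fun hab => h (congrArg f hab), h⟩
  rw [h1, pr_eq, h2, add_comm, Finset.card_filter_add_card_filter_not, Finset.card_product, sq]

theorem sum_filter (p : ℕ) (f : V → Fin p) (S : Finset V) :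
    ∑ i : Fin p, (S.filter (fun a => f a = i)).card = S.card :=
  (Finset.card_eq_sum_card_fiberwise (f := f) (s := S) (t := Finset.univ)
    (fun _ _ => Finset.mem_univ _)).symm

theorem cv3 : CV3Stmt := by
  intro V p f S
  have h1 := pr_ne_add p f S
  have h2 := sum_filter p f S
  refine ⟨?_, ?_, ?_⟩
  · rintro rfl hS
    rw [Fin.sum_univ_two] at h1 h2
    set x := (S.filter (fun a => f a = 0)).card
    set y := (S.filter (fun a => f a = 1)).card
    have h3 : 2 * x * y ≤ x ^ 2 + y ^ 2 := two_mul_le_add_sq x y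
    rw [← h2] at h1 hS ⊢
    nlinarith
  · rintro rfl hS
    rw [Fin.sum_univ_three] at h1 h2
    set x := (S.filter (fun a => f a = 0)).card
    set y := (S.filter (fun a => f a = 1)).card
    set z := (S.filter (fun a => f a = 2)).card
    have h3 : 2 * x * y ≤ x ^ 2 + y ^ 2 := two_mul_le_add_sq x y
    have h4 : 2 * y * z ≤ y ^ 2 + z ^ 2 := two_mul_le_add_sq y z
    have h5 : 2 * x * z ≤ x ^ 2 + z ^ 2 := two_mul_le_add_sq x z
    rw [← h2] at h1 hS ⊢
    nlinarith
  · intro hS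
    have h3 : pr S (fun a b => f a ≠ f b) ≤ S.card * (S.card - 1) := by
      have h0 : S.offDiag.card = S.card * (S.card - 1) := by
        rw [Finset.offDiag_card, Nat.mul_sub_one]
      rw [← h0, pr_eq]
      refine Finset.card_le_card ?_
      rintro ⟨a, b⟩ he
      rw [mem_prS] at he
      rw [Finset.mem_offDiag]
      exact ⟨he.1, he.2.1, he.2.2.1⟩
    refine h3.trans ?_
    rw [mul_comm]
    exact Nat.mul_le_mul_right _ (by omega)

end Pool.Agent.H30.RCQ.CV
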